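import Pool.Agent.H18.RH.Defs

set_option autoImplicit false

/-!
1x1 Rush Hour with one empty cell: every single horizontal block that stays in columns with exactly
two non-vertical cells has a conserved charge modulo 2.
-/

namespace Pool.Agent.H18.RH

open Pool.Agent.H86.RH Finset

variable {m n : ℕ}

/-- number of horizontal blocks to the left of `p` in its row -/
def rank (c : Config m n) (p : Fin m × Fin n) : ℕ := #{j : Fin n | c (p.1, j) = some true ∧ j < p.2}

/-- the result of a move -/
def mv (c : Config m n) (x y : Fin m × Fin n) (b : Bool) : Config m n :=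
  Function.update (Function.update c x none) y (some b)

theorem mv_eq {c : Config m n} {x y : Fin m × Fin n} {b : Bool} (hne : x ≠ y) (hx : c x = some b)
    (hy : c y = none) (z : Fin m × Fin n) : mv c x y b z = c (Equiv.swap x y z) := by
  unfold mv
  by_cases h1 : z = y
  · subst h1
    rw [Equiv.swap_apply_right, hx]
    simp
  · rw [Function.update_of_ne h1]
    by_cases h2 : z = x
    · subst h2
      rw [Equiv.swap_apply_left, hy]
      simp
    · rw [Function.update_of_ne h2, Equiv.swap_apply_of_ne_of_ne h2 h1]

theorem mv_at {c : Config m n} {x y : Fin m × Fin n} {b : Bool} : mv c x y b y = some b := by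
  unfold mv; simp

theorem mv_from {c : Config m n} {x y : Fin m × Fin n} {b : Bool} (hne : x ≠ y) :
    mv c x y b x = none := by
  unfold mv; rw [Function.update_of_ne hne]; simp

theorem mv_off {c : Config m n} {x y z : Fin m × Fin n} {b : Bool} (h1 : z ≠ x) (h2 : z ≠ y) :
    mv c x y b z = c z := by
  unfold mv; rw [Function.update_of_ne h2, Function.update_of_ne h1]

/-- A horizontal move keeps the vertical blocks. -/
theorem mv_true_false {c : Config m n} {x y : Fin m × Fin n} (hne : x ≠ y)
    (hx : c x = some true) (hy : c y = none) (z : Fin m × Fin n) :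
    mv c x y true z = some false ↔ c z = some false := by
  by_cases h1 : z = x
  · subst h1; rw [mv_from hne, hx]; simp
  · by_cases h2 : z = y
    · subst h2; rw [mv_at, hy]; simp
    · rw [mv_off h1 h2]

/-- A vertical move keeps the horizontal blocks. -/
theorem mv_false_true {c : Config m n} {x y : Fin m × Fin n} (hne : x ≠ y)
    (hx : c x = some false) (hy : c y = none) (z : Fin m × Fin n) :
    mv c x y false z = some true ↔ c z = some true := by
  by_cases h1 : z = x
  · subst h1; rw [mv_from hne, hx]; simp
  · by_cases h2 : z = y
    · subst h2; rw [mv_at, hy]; simp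
    · rw [mv_off h1 h2]

/-- vertical moves -/
theorem charge_vertical {c : Config m n} {a q p : Fin m × Fin n} (hs : Slide false a q)
    (ha : c a = some false) (hq : c q = none) (hp : c p = some true) :
    charge (mv c a q false) a p = charge c q p ∧ rank (mv c a q false) p = rank c p := by
  have hne := hs.ne
  have hcol : a.2 = q.2 ∧ ((a.1 : ℕ) + 1 = q.1 ∨ (q.1 : ℕ) + 1 = a.1) := by
    unfold Slide at hs
    simpa using hs
  have hpa : p ≠ a := by rintro rfl; rw [ha] at hp; simp at hp
  have hpq : p ≠ q := by rintro rfl; rw [hq] at hp; simp at hp
  constructor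
  · unfold charge
    congr 1
    · congr 1
      ext y
      simp only [mem_filter, mem_univ, true_and]
      rw [mv_false_true hne ha hq]
    · rw [hcol.1]
      split_ifs with h
      · by_cases hpc : p.2 = q.2
        · apply Finset.card_equiv (Equiv.swap a.1 q.1)
          intro i
          simp only [mem_filter, mem_univ, true_and]
          have e1 : mv c a q false (i, p.2) = c (Equiv.swap a.1 q.1 i, p.2) := by
            rw [mv_eq hne ha hq]
            congr 1
            by_cases h1 : i = a.1
            · subst h1
              rw [Equiv.swap_apply_left, show (a.1, p.2) = a by rw [hpc, ← hcol.1],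
                Equiv.swap_apply_left, hpc]
            · by_cases h2 : i = q.1
              · subst h2
                rw [Equiv.swap_apply_right, show (q.1, p.2) = q by rw [hpc],
                  Equiv.swap_apply_right, hpc, ← hcol.1]
              · rw [Equiv.swap_apply_of_ne_of_ne h1 h2, Equiv.swap_apply_of_ne_of_ne]
                · intro h; exact h1 (by rw [← h])
                · intro h; exact h2 (by rw [← h])
          rw [e1]
          have hp1 : (p.1 : ℕ) ≠ a.1 := fun h => hpa (Prod.ext (Fin.ext h) (hpc.trans hcol.1.symm))
          have hp2 : (p.1 : ℕ) ≠ q.1 := fun h => hpq (Prod.ext (Fin.ext h) hpc)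
          have e2 : p.1 < i ↔ p.1 < Equiv.swap a.1 q.1 i := by
            by_cases h1 : i = a.1
            · subst h1
              rw [Equiv.swap_apply_left, Fin.lt_def, Fin.lt_def]
              omega
            · by_cases h2 : i = q.1
              · subst h2
                rw [Equiv.swap_apply_right, Fin.lt_def, Fin.lt_def]
                omega
              · rw [Equiv.swap_apply_of_ne_of_ne h1 h2]
          rw [e2]
        · congr 1
          ext i
          simp only [mem_filter, mem_univ, true_and]
          rw [mv_off]
          · intro h; exact hpc (by rw [← hcol.1, ← h])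
          · intro h; exact hpc (by rw [← h])
      · rfl
  · unfold rank
    congr 1
    ext j
    simp only [mem_filter, mem_univ, true_and]
    rw [mv_false_true hne ha hq]

/-- moves of a horizontal block to the left -/
theorem charge_left {c : Config m n} {a q p : Fin m × Fin n} (hrow : a.1 = q.1)
    (hcol : (q.2 : ℕ) + 1 = a.2) (ha : c a = some true) (hq : c q = none)
    (hx : ∀ y, c y = none ↔ y = q) (hp : c p = some true)
    (h2 : #{i : Fin m | c (i, p.2) ≠ some false} = 2) :
    charge c q p % 2 = charge (mv c a q true) a (if p = a then q else p) % 2 ∧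
      rank c p = rank (mv c a q true) (if p = a then q else p) := by
  have hne : a ≠ q := by
    rintro rfl
    omega
  have hpq : p ≠ q := by rintro rfl; rw [hq] at hp; simp at hp
  have hlt : q.2 < a.2 := by rw [Fin.lt_def]; omega
  by_cases hpa : p = a
  · subst hpa
    rw [if_pos rfl]
    constructor
    · unfold charge
      rw [if_neg (not_le.2 hlt), if_pos hlt.le, add_zero]
      congr 1
      have hset : ({y : Fin m × Fin n | c y = some true ∧ p.1 < y.1 ∧ y.2 < p.2} : Finset _)
          = ({y : Fin m × Fin n | mv c p q true y = some true ∧ q.1 < y.1 ∧ y.2 < q.2} : Finset _) ∪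
            ({i : Fin m | mv c p q true (i, q.2) ≠ some false ∧ q.1 < i} : Finset _).image
              (fun i => (i, q.2)) := by
        ext y
        simp only [mem_filter, mem_univ, true_and, mem_union, mem_image]
        constructor
        · rintro ⟨h1, h3, h4⟩
          rw [hrow] at h3
          have hyp : y ≠ p := by rintro rfl; exact absurd h4 (lt_irrefl _)
          have hyq : y ≠ q := by rintro rfl; exact absurd h3 (lt_irrefl _)
          by_cases h5 : y.2 < q.2
          · left
            exact ⟨by rw [mv_off hyp hyq]; exact h1, h3, h5⟩
          · right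
            have h6 : y.2 = q.2 := by
              apply Fin.ext
              rw [Fin.lt_def] at h4 h5
              omega
            refine ⟨y.1, ⟨?_, h3⟩, ?_⟩
            · have : (y.1, q.2) = y := by rw [← h6]
              rw [this, mv_off hyp hyq, h1]
              simp
            · rw [← h6]
        · rintro (⟨h1, h3, h4⟩ | ⟨i, ⟨h1, h3⟩, rfl⟩)
          · have hyp : y ≠ p := by rintro rfl; exact absurd (h4.trans hlt) (lt_irrefl _)
            have hyq : y ≠ q := by rintro rfl; exact absurd h3 (lt_irrefl _)
            rw [mv_off hyp hyq] at h1
            exact ⟨h1, by rw [hrow]; exact h3, h4.trans hlt⟩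
          · have hyp : (i, q.2) ≠ p := by
              intro h
              rw [← h] at hlt
              exact absurd hlt (lt_irrefl _)
            have hyq : (i, q.2) ≠ q := by
              intro h
              rw [← h] at h3
              exact absurd h3 (lt_irrefl _)
            rw [mv_off hyp hyq] at h1
            refine ⟨?_, by rw [hrow]; exact h3, hlt⟩
            rcases hc : c (i, q.2) with _ | b
            · exact absurd ((hx _).1 hc) hyq
            · cases b
              · exact absurd hc h1
              · rfl
      rw [hset, card_union_of_disjoint, card_image_of_injective]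
      · intro i j h
        exact (Prod.mk.inj h).1
      · rw [disjoint_left]
        intro y hy hy'
        simp only [mem_filter, mem_univ, true_and, mem_image] at hy hy'
        obtain ⟨i, _, rfl⟩ := hy'
        exact absurd hy.2.2 (lt_irrefl _)
    · unfold rank
      congr 1
      ext j
      simp only [mem_filter, mem_univ, true_and]
      constructor
      · rintro ⟨h1, h3⟩
        rw [hrow] at h1
        have hjq : j ≠ q.2 := by
          rintro rfl
          rw [show (q.1, q.2) = q from rfl, hq] at h1
          simp at h1
        have hjq' : j < q.2 := by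
          rw [Fin.lt_def] at h3 ⊢
          have : (j : ℕ) ≠ q.2 := fun h => hjq (Fin.ext h)
          omega
        refine ⟨?_, hjq'⟩
        rw [mv_off, h1]
        · intro h
          have h5 : j = p.2 := by rw [← h]
          rw [h5] at hjq'
          exact absurd (hjq'.trans hlt) (lt_irrefl _)
        · intro h
          exact hjq (by rw [← h])
      · rintro ⟨h1, h3⟩
        rw [mv_off] at h1
        · exact ⟨by rw [hrow]; exact h1, h3.trans hlt⟩
        · intro h
          have h5 : j = p.2 := by rw [← h]
          rw [h5] at h3
          exact absurd (h3.trans hlt) (lt_irrefl _)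
        · intro h
          have h5 : j = q.2 := by rw [← h]
          exact absurd h3 (by rw [h5]; exact lt_irrefl _)
  · rw [if_neg hpa]
    constructor
    · unfold charge
      rcases lt_trichotomy p.2 a.2 with hlt' | heq | hgt
      · -- `p` in a column up to that of `q`
        have hle : p.2 ≤ q.2 := by rw [Fin.le_def]; rw [Fin.lt_def] at hlt'; omega
        rw [if_pos hle, if_pos (hle.trans hlt.le)]
        have e1 : ({y : Fin m × Fin n | mv c a q true y = some true ∧ p.1 < y.1 ∧ y.2 < p.2} :
            Finset _) = ({y : Fin m × Fin n | c y = some true ∧ p.1 < y.1 ∧ y.2 < p.2} : Finset _) := by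
          ext y
          simp only [mem_filter, mem_univ, true_and]
          constructor
          · rintro ⟨h1, h3, h4⟩
            rw [mv_off] at h1
            · exact ⟨h1, h3, h4⟩
            · rintro rfl; exact absurd (h4.trans hlt') (lt_irrefl _)
            · rintro rfl; exact absurd (lt_of_lt_of_le h4 hle) (lt_irrefl _)
          · rintro ⟨h1, h3, h4⟩
            rw [mv_off]
            · exact ⟨h1, h3, h4⟩
            · rintro rfl; exact absurd (h4.trans hlt') (lt_irrefl _)
            · rintro rfl; exact absurd (lt_of_lt_of_le h4 hle) (lt_irrefl _)
        have e2 : ({i : Fin m | mv c a q true (i, p.2) ≠ some false ∧ p.1 < i} : Finset _)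
            = ({i : Fin m | c (i, p.2) ≠ some false ∧ p.1 < i} : Finset _) := by
          ext i
          simp only [mem_filter, mem_univ, true_and, ne_eq]
          rw [mv_true_false hne ha hq]
        rw [e1, e2]
      · -- `p` in the column of `a`
        have hnle : ¬ p.2 ≤ q.2 := by rw [heq]; exact not_le.2 hlt
        rw [if_neg hnle, if_pos heq.le]
        have hp1 : p.1 ≠ a.1 := fun h => hpa (Prod.ext h heq)
        have hset : ({i : Fin m | c (i, p.2) ≠ some false} : Finset _) = {p.1, a.1} := by
          symm
          apply Finset.eq_of_subset_of_card_le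
          · intro i hi
            simp only [mem_insert, mem_singleton] at hi
            simp only [mem_filter, mem_univ, true_and]
            rcases hi with rfl | rfl
            · rw [show (p.1, p.2) = p from rfl, hp]; simp
            · rw [heq, show (a.1, a.2) = a from rfl, ha]; simp
          · rw [h2, card_pair hp1]
        have e2 : #{i : Fin m | mv c a q true (i, p.2) ≠ some false ∧ p.1 < i}
            = if p.1 < a.1 then 1 else 0 := by
          have : ({i : Fin m | mv c a q true (i, p.2) ≠ some false ∧ p.1 < i} : Finset _)
              = if p.1 < a.1 then {a.1} else ∅ := by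
            ext i
            have hi : c (i, p.2) ≠ some false ↔ i = p.1 ∨ i = a.1 := by
              have := Finset.ext_iff.1 hset i
              simpa using this
            simp only [mem_filter, mem_univ, true_and]
            rw [ne_eq, mv_true_false hne ha hq, ← ne_eq, hi]
            split_ifs with h
            · rw [mem_singleton]
              constructor
              · rintro ⟨rfl | rfl, h5⟩
                · exact absurd h5 (lt_irrefl _)
                · rfl
              · rintro rfl
                exact ⟨Or.inr rfl, h⟩
            · constructor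
              · rintro ⟨rfl | rfl, h5⟩
                · exact absurd h5 (lt_irrefl _)
                · exact absurd h5 h
              · intro h5; simp at h5
          rw [this]
          split_ifs <;> simp
        have e1 : #{y : Fin m × Fin n | mv c a q true y = some true ∧ p.1 < y.1 ∧ y.2 < p.2}
            = #{y : Fin m × Fin n | c y = some true ∧ p.1 < y.1 ∧ y.2 < p.2}
              + if p.1 < a.1 then 1 else 0 := by
          split_ifs with h
          · have : ({y : Fin m × Fin n | mv c a q true y = some true ∧ p.1 < y.1 ∧ y.2 < p.2} :
                Finset _)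
              = insert q ({y : Fin m × Fin n | c y = some true ∧ p.1 < y.1 ∧ y.2 < p.2} : Finset _) := by
              ext y
              simp only [mem_filter, mem_univ, true_and, mem_insert]
              by_cases hyq : y = q
              · subst hyq
                rw [mv_at]
                simp only [true_and, true_or, iff_true]
                exact ⟨by rw [← hrow]; exact h, by rw [heq]; exact hlt⟩
              · constructor
                · rintro ⟨h1, h3, h4⟩
                  right
                  rw [mv_off (by rintro rfl; rw [heq] at h4; exact absurd h4 (lt_irrefl _)) hyq] at h1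
                  exact ⟨h1, h3, h4⟩
                · rintro (h1 | ⟨h1, h3, h4⟩)
                  · exact absurd h1 hyq
                  · rw [mv_off (by rintro rfl; rw [heq] at h4; exact absurd h4 (lt_irrefl _)) hyq]
                    exact ⟨h1, h3, h4⟩
            rw [this, card_insert_of_notMem]
            simp [hq]
          · rw [add_zero]
            congr 1
            ext y
            simp only [mem_filter, mem_univ, true_and]
            by_cases hyq : y = q
            · subst hyq
              rw [hq]
              constructor
              · rintro ⟨h1, h3, h4⟩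
                exact absurd (by rw [hrow]; exact h3) h
              · rintro ⟨h1, _⟩; simp at h1
            · constructor
              · rintro ⟨h1, h3, h4⟩
                rw [mv_off (by rintro rfl; rw [heq] at h4; exact absurd h4 (lt_irrefl _)) hyq] at h1
                exact ⟨h1, h3, h4⟩
              · rintro ⟨h1, h3, h4⟩
                rw [mv_off (by rintro rfl; rw [heq] at h4; exact absurd h4 (lt_irrefl _)) hyq]
                exact ⟨h1, h3, h4⟩
        rw [e1, e2]
        split_ifs <;> omega
      · -- `p` to the right of `a`
        have hnle : ¬ p.2 ≤ q.2 := not_le.2 (hlt.trans hgt)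
        have hnle' : ¬ p.2 ≤ a.2 := not_le.2 hgt
        rw [if_neg hnle, if_neg hnle']
        congr 2
        apply Finset.card_equiv (Equiv.swap a q)
        intro y
        simp only [mem_filter, mem_univ, true_and]
        by_cases h1 : y = a
        · subst h1
          rw [Equiv.swap_apply_left, mv_at, ha, hrow]
          simp [hgt, hlt.trans hgt]
        · by_cases h3 : y = q
          · subst h3
            rw [Equiv.swap_apply_right, mv_from hne, hq]
            simp
          · rw [Equiv.swap_apply_of_ne_of_ne h1 h3, mv_off h1 h3]
    · unfold rank
      by_cases hr : p.1 = a.1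
      · have hpc : p.2 ≠ a.2 := fun h => hpa (Prod.ext hr h)
        have hpc' : p.2 ≠ q.2 := fun h => hpq (Prod.ext (hr.trans hrow) h)
        apply Finset.card_equiv (Equiv.swap a.2 q.2)
        intro j
        simp only [mem_filter, mem_univ, true_and]
        by_cases h1 : j = a.2
        · subst h1
          rw [Equiv.swap_apply_left, hr, show (a.1, a.2) = a from rfl, ha, hrow,
            show (q.1, q.2) = q from rfl, mv_at]
          simp only [true_and]
          rw [Fin.lt_def, Fin.lt_def]
          have : (p.2 : ℕ) ≠ a.2 := fun h => hpc (Fin.ext h)
          omega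
        · by_cases h3 : j = q.2
          · subst h3
            rw [Equiv.swap_apply_right, hr, hrow, show (q.1, q.2) = q from rfl, hq, ← hrow,
              show (a.1, a.2) = a from rfl, mv_from hne]
            simp
          · rw [Equiv.swap_apply_of_ne_of_ne h1 h3, mv_off]
            · intro h; exact h1 (by rw [← h])
            · intro h; exact h3 (by rw [← h])
      · congr 1
        ext j
        simp only [mem_filter, mem_univ, true_and]
        rw [mv_off]
        · intro h; exact hr (by rw [← h])
        · intro h; exact hr (by rw [hrow, ← h])

/-- the empty cell after a move -/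
theorem hole_mv {c : Config m n} {a q : Fin m × Fin n} {b : Bool} (hne : a ≠ q)
    (ha : c a = some b) (hx : ∀ y, c y = none ↔ y = q) (y : Fin m × Fin n) :
    mv c a q b y = none ↔ y = a := by
  have hq : c q = none := (hx q).2 rfl
  by_cases h1 : y = a
  · subst h1; simp [mv_from hne]
  · by_cases h2 : y = q
    · subst h2; rw [mv_at]; simp [h1]
    · rw [mv_off h1 h2, hx]; simp [h1, h2]

/-- moving back -/
theorem mv_mv {c : Config m n} {a q : Fin m × Fin n} {b : Bool} (hne : a ≠ q)
    (ha : c a = some b) (hq : c q = none) : mv (mv c a q b) q a b = c := by
  funext z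
  rw [mv_eq hne.symm mv_at (mv_from hne), mv_eq hne ha hq, Equiv.swap_comm q a,
    Equiv.swap_apply_self]

/-- One marked move: the mark stays on a horizontal block, in its row, and charge and rank do not
change. -/
theorem marked_step {c c' : Config m n} {p p' q : Fin m × Fin n} (h : MarkedStep (c, p) (c', p'))
    (hx : ∀ y, c y = none ↔ y = q) (hp : c p = some true)
    (h2 : #{i : Fin m | c (i, p.2) ≠ some false} = 2)
    (h2' : #{i : Fin m | c' (i, p'.2) ≠ some false} = 2) :
    ∃ q', (∀ y, c' y = none ↔ y = q') ∧ c' p' = some true ∧ p'.1 = p.1 ∧
      charge c q p % 2 = charge c' q' p' % 2 ∧ rank c p = rank c' p' := by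
  obtain ⟨b, a, y, hs, ha, hy, hc', hp'⟩ := h
  simp only at ha hy hc' hp'
  have hyq : y = q := (hx y).1 hy
  subst hyq
  have hne := hs.ne
  change c' = mv c a y b at hc'
  have hpq : p ≠ y := by rintro rfl; rw [hy] at hp; simp at hp
  refine ⟨a, by rw [hc']; exact hole_mv hne ha hx, ?_⟩
  cases b with
  | false =>
    have hpa : p ≠ a := by rintro rfl; rw [ha] at hp; simp at hp
    rw [if_neg hpa] at hp'
    rw [hp', hc']
    obtain ⟨e1, e2⟩ := charge_vertical hs ha hy hp
    exact ⟨by rw [mv_off hpa hpq]; exact hp, rfl, by rw [e1], e2.symm⟩
  | true =>
    have hsl : a.1 = y.1 ∧ ((a.2 : ℕ) + 1 = y.2 ∨ (y.2 : ℕ) + 1 = a.2) := by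
      unfold Slide at hs
      simpa using hs
    have hp1 : c' p' = some true := by
      rw [hp', hc']
      split_ifs with h
      · exact mv_at
      · rw [mv_off h hpq]; exact hp
    have hp2 : p'.1 = p.1 := by
      rw [hp']
      split_ifs with h
      · rw [h, hsl.1]
      · rfl
    refine ⟨hp1, hp2, ?_⟩
    rcases hsl.2 with hr | hl
    · -- the block moves to the right: reverse
      have hback : mv c' y a true = c := by rw [hc']; exact mv_mv hne ha hy
      have hx' : ∀ z, c' z = none ↔ z = a := by rw [hc']; exact hole_mv hne ha hx
      have hcy : c' y = some true := by rw [hc']; exact mv_at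
      have hca : c' a = none := by rw [hc']; exact mv_from hne
      have hpb : (if p' = y then a else p') = p := by
        rw [hp']
        by_cases h : p = a
        · rw [if_pos h, if_pos rfl, h]
        · rw [if_neg h, if_neg hpq]
      obtain ⟨e1, e2⟩ := charge_left hsl.1.symm hr hcy hca hx' hp1 h2'
      rw [hback, hpb] at e1 e2
      exact ⟨e1.symm, e2.symm⟩
    · obtain ⟨e1, e2⟩ := charge_left hsl.1 hl ha hy hx hp h2
      rw [← hc', ← hp'] at e1 e2
      exact ⟨e1, e2⟩

/-- **Invariance** of charge and rank. -/
theorem carried {c : Config m n} {p q : Fin m × Fin n} (hx : ∀ y, c y = none ↔ y = q)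
    (hp : c p = some true)
    (hK : ∀ (d : Config m n) (r : Fin m × Fin n), Carries c p d r →
      #{i : Fin m | d (i, r.2) ≠ some false} = 2)
    {s : Config m n × (Fin m × Fin n)} (h : Relation.ReflTransGen MarkedStep (c, p) s) :
    ∃ q', (∀ y, s.1 y = none ↔ y = q') ∧ s.1 s.2 = some true ∧ s.2.1 = p.1 ∧
      charge c q p % 2 = charge s.1 q' s.2 % 2 ∧ rank c p = rank s.1 s.2 := by
  induction h with
  | refl => exact ⟨q, hx, hp, rfl, rfl, rfl⟩
  | @tail s s' h1 hst ih =>
    obtain ⟨q1, e1, e2, e3, e4, e5⟩ := ih
    obtain ⟨q2, f1, f2, f3, f4, f5⟩ := marked_step (c := s.1) (p := s.2) (c' := s'.1) (p' := s'.2)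
      hst e1 e2 (hK s.1 s.2 h1) (hK s'.1 s'.2 (h1.tail hst))
    exact ⟨q2, f1, f2, f3.trans e3, e4.trans f4, e5.trans f5⟩

/-- every sequence of moves carries the block at `p` somewhere -/
theorem carries_of_reach {c c' : Config m n} (h : Reach c c') (p : Fin m × Fin n) :
    ∃ p', Carries c p c' p' := by
  induction h with
  | refl => exact ⟨p, Relation.ReflTransGen.refl⟩
  | tail _ hst ih =>
    obtain ⟨p1, h1⟩ := ih
    obtain ⟨b, x, y, hs, hx, hy, rfl⟩ := hst
    exact ⟨if p1 = x then y else p1, h1.tail ⟨b, x, y, hs, hx, hy, rfl, rfl⟩⟩

/-- a horizontal block of a row is determined by its rank -/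
theorem eq_of_rank {c : Config m n} {p p' : Fin m × Fin n} (hp : c p = some true)
    (hp' : c p' = some true) (hrow : p.1 = p'.1) (h : rank c p = rank c p') : p = p' := by
  have key : ∀ r r' : Fin m × Fin n, c r = some true → r.1 = r'.1 → r.2 < r'.2 →
      rank c r < rank c r' := by
    intro r r' hr hrr hlt
    unfold rank
    apply Finset.card_lt_card
    rw [Finset.ssubset_iff_of_subset]
    · refine ⟨r.2, ?_, ?_⟩
      · simp only [mem_filter, mem_univ, true_and]
        exact ⟨by rw [← hrr]; exact hr, hlt⟩
      · simp
    · intro j
      simp only [mem_filter, mem_univ, true_and]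
      rintro ⟨h1, h3⟩
      exact ⟨by rw [← hrr]; exact h1, h3.trans hlt⟩
  rcases lt_trichotomy p.2 p'.2 with hlt | heq | hgt
  · exact absurd h (key p p' hp hrow hlt).ne
  · exact Prod.ext hrow heq
  · exact absurd h (key p' p hp' hrow.symm hgt).ne'

/-- moves keep the number of non-vertical cells of a column -/
theorem nv_step {c c' : Config m n} (h : Step c c') (j : Fin n) :
    #{i : Fin m | c' (i, j) ≠ some false} = #{i : Fin m | c (i, j) ≠ some false} := by
  obtain ⟨b, a, q, hs, ha, hq, hc'⟩ := h
  have hne := hs.ne
  change c' = mv c a q b at hc'
  subst hc'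
  cases b with
  | true =>
    congr 1
    apply Finset.filter_congr
    intro i _
    rw [ne_eq, ne_eq, mv_true_false hne ha hq]
  | false =>
    have hcol : a.2 = q.2 ∧ ((a.1 : ℕ) + 1 = q.1 ∨ (q.1 : ℕ) + 1 = a.1) := by
      unfold Slide at hs
      simpa using hs
    by_cases hj : j = q.2
    · apply Finset.card_equiv (Equiv.swap a.1 q.1)
      intro i
      simp only [mem_filter, mem_univ, true_and]
      rw [mv_eq hne ha hq]
      have : Equiv.swap a q (i, j) = (Equiv.swap a.1 q.1 i, j) := by
        by_cases h1 : i = a.1
        · subst h1
          rw [Equiv.swap_apply_left, show (a.1, j) = a by rw [hj, ← hcol.1],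
            Equiv.swap_apply_left, hj]
        · by_cases h2 : i = q.1
          · subst h2
            rw [Equiv.swap_apply_right, show (q.1, j) = q by rw [hj],
              Equiv.swap_apply_right, hj, ← hcol.1]
          · rw [Equiv.swap_apply_of_ne_of_ne h1 h2, Equiv.swap_apply_of_ne_of_ne]
            · intro h; exact h1 (by rw [← h])
            · intro h; exact h2 (by rw [← h])
      rw [this]
    · congr 1
      apply Finset.filter_congr
      intro i _
      rw [mv_off]
      · intro h; exact hj (by rw [← hcol.1, ← h])
      · intro h; exact hj (by rw [← h])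

theorem nv_carries {c d : Config m n} {p r : Fin m × Fin n} (h : Carries c p d r) (j : Fin n) :
    #{i : Fin m | d (i, j) ≠ some false} = #{i : Fin m | c (i, j) ≠ some false} := by
  have key : ∀ s : Config m n × (Fin m × Fin n), Relation.ReflTransGen MarkedStep (c, p) s →
      #{i : Fin m | s.1 (i, j) ≠ some false} = #{i : Fin m | c (i, j) ≠ some false} := by
    intro s hs
    induction hs with
    | refl => rfl
    | tail _ hst ih =>
      obtain ⟨b, x, y, hs, hx, hy, hc, _⟩ := hst
      rw [nv_step ⟨b, x, y, hs, hx, hy, hc⟩, ih]
  exact key (d, r) h

end Pool.Agent.H18.RH
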