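import Pool.Agent.H86.RH.Basic

set_option autoImplicit false

/-!
1x1 Rush Hour: moves with a marked block, and the charge of a horizontal block.
-/

namespace Pool.Agent.H18.RH

open Pool.Agent.H86.RH Finset

variable {m n : ℕ}

/-- One unit move with a marked cell: a block slides from `x` into the adjacent empty cell `y`, and
the mark moves with the block if it was at `x`. -/
def MarkedStep (s s' : Config m n × (Fin m × Fin n)) : Prop :=
  ∃ (b : Bool) (x y : Fin m × Fin n), Slide b x y ∧ s.1 x = some b ∧ s.1 y = none ∧
    s'.1 = Function.update (Function.update s.1 x none) y (some b) ∧
    s'.2 = if s.2 = x then y else s.2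

/-- Some finite sequence of moves leads from `c` to `c'` and carries the block at `p` to `p'`. -/
def Carries (c : Config m n) (p : Fin m × Fin n) (c' : Config m n) (p' : Fin m × Fin n) : Prop :=
  Relation.ReflTransGen MarkedStep (c, p) (c', p')

/-- The charge of the horizontal block at `p` when `x` is the empty cell: the number of horizontal
blocks strictly below and strictly to the left of `p`, plus, if `x` is not in a column to the left of
`p`, the number of cells below `p` in its column which do not hold a vertical block. -/
def charge (c : Config m n) (x p : Fin m × Fin n) : ℕ :=
  #{y : Fin m × Fin n | c y = some true ∧ p.1 < y.1 ∧ y.2 < p.2} +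
  if p.2 ≤ x.2 then #{i : Fin m | c (i, p.2) ≠ some false ∧ p.1 < i} else 0

end Pool.Agent.H18.RH
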