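import Pool.Agent.H18.RH.Charge

set_option autoImplicit false

/-!
1x1 Rush Hour with one empty cell: the configurations on the `4 x (2k+2)` board whose columns are of
two types, told apart by the charges of single blocks.
-/

namespace Pool.Agent.H18.RH

open Pool.Agent.H86.RH Finset

/-! ### the family -/

/-- type of the column `j` (`false`: horizontal blocks in the rows 0, 2; `true`: in 1, 3) -/
def typ (s : ℕ → Bool) (j : ℕ) : Bool :=
  if j < 2 then false else if j % 2 = 0 then s (j / 2 - 1) else !s (j / 2 - 1)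

/-- the cells of the family -/
def cell (s : ℕ → Bool) (i j : ℕ) : Option Bool :=
  if j = 0 then (if i = 1 then none else if i = 3 then some true else some false)
  else some (xor (decide (i % 2 = 0)) (typ s j))

/-- number of horizontal blocks in row `i` left of column `N` -/
def cnt (s : ℕ → Bool) (i N : ℕ) : ℕ := #{j ∈ range N | cell s i j = some true}

theorem cnt_succ (s : ℕ → Bool) (i N : ℕ) :
    cnt s i (N + 1) = cnt s i N + if cell s i N = some true then 1 else 0 := by
  unfold cnt
  rw [range_add_one, filter_insert]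
  split_ifs with h
  · rw [card_insert_of_notMem]
    simp
  · rfl

theorem typ_even (s : ℕ → Bool) (l : ℕ) : typ s (2 * l + 2) = s l := by
  unfold typ
  rw [if_neg (by omega), if_pos (by omega)]
  have : (2 * l + 2) / 2 - 1 = l := by omega
  rw [this]

theorem typ_odd (s : ℕ → Bool) (l : ℕ) : typ s (2 * l + 3) = !s l := by
  unfold typ
  rw [if_neg (by omega), if_neg (by omega)]
  have : (2 * l + 3) / 2 - 1 = l := by omega
  rw [this]

theorem cnt_base (s : ℕ → Bool) (i : ℕ) (l : ℕ) : cnt s i (2 * l + 2) = cnt s i 2 + l := by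
  induction l with
  | zero => rfl
  | succ l ih =>
    rw [show 2 * (l + 1) + 2 = 2 * l + 2 + 1 + 1 by ring, cnt_succ, cnt_succ, ih]
    have e1 : cell s i (2 * l + 2) = some (xor (decide (i % 2 = 0)) (s l)) := by
      unfold cell
      rw [if_neg (by omega), typ_even]
    have e2 : cell s i (2 * l + 2 + 1) = some (xor (decide (i % 2 = 0)) (!s l)) := by
      unfold cell
      rw [if_neg (by omega), typ_odd]
    rw [e1, e2]
    cases decide (i % 2 = 0) <;> cases s l <;> simp <;> omega

theorem cnt_two (s s' : ℕ → Bool) (i : ℕ) : cnt s i 2 = cnt s' i 2 := by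
  have h : ∀ j : ℕ, j < 2 → cell s i j = cell s' i j := by
    intro j hj
    unfold cell typ
    rw [if_pos hj, if_pos hj]
  unfold cnt
  have hset : ({j ∈ range 2 | cell s i j = some true} : Finset ℕ)
      = ({j ∈ range 2 | cell s' i j = some true} : Finset ℕ) := by
    apply Finset.filter_congr
    intro j hj
    rw [h j (mem_range.1 hj)]
  rw [hset]

/-- extension of a 0-1 vector by `false` -/
def ext (k : ℕ) (s : Fin k → Bool) (i : ℕ) : Bool := if h : i < k then s ⟨i, h⟩ else false

/-- the family of configurations on the `4 x (2k+2)` board -/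
def fam (k : ℕ) (s : Fin k → Bool) : Config 4 (2 * k + 2) := fun y => cell (ext k s) y.1 y.2

theorem cnt_row {k : ℕ} (s : Fin k → Bool) (i : Fin 4) (N : ℕ) (hN : N ≤ 2 * k + 2) :
    #{j : Fin (2 * k + 2) | fam k s (i, j) = some true ∧ (j : ℕ) < N} = cnt (ext k s) i N := by
  unfold cnt
  apply Finset.card_bij (fun (j : Fin (2 * k + 2)) _ => (j : ℕ))
  · intro j hj
    simp only [mem_filter, mem_univ, true_and, mem_range] at hj ⊢
    exact ⟨hj.2, hj.1⟩
  · intro j _ j' _ h
    exact Fin.ext h
  · intro j hj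
    simp only [mem_filter, mem_range] at hj
    exact ⟨⟨j, by omega⟩, by simp only [mem_filter, mem_univ, true_and]; exact ⟨hj.2, hj.1⟩, rfl⟩

theorem cnt_below {k : ℕ} (s : Fin k → Bool) (N : ℕ) (hN : N ≤ 2 * k + 2) (i : Fin 4)
    (hi : (i : ℕ) = 2) :
    #{y : Fin 4 × Fin (2 * k + 2) | fam k s y = some true ∧ i < y.1 ∧ (y.2 : ℕ) < N}
      = cnt (ext k s) 3 N := by
  unfold cnt
  apply Finset.card_bij (fun (y : Fin 4 × Fin (2 * k + 2)) _ => (y.2 : ℕ))
  · intro y hy
    simp only [mem_filter, mem_univ, true_and, mem_range] at hy ⊢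
    have h3 : (y.1 : ℕ) = 3 := by
      have := hy.2.1
      rw [Fin.lt_def] at this
      have := y.1.isLt
      omega
    refine ⟨hy.2.2, ?_⟩
    rw [← hy.1]
    unfold fam
    rw [h3]
  · intro y hy y' hy' h
    simp only [mem_filter, mem_univ, true_and] at hy hy'
    refine Prod.ext (Fin.ext ?_) (Fin.ext h)
    have e1 := hy.2.1
    have e2 := hy'.2.1
    rw [Fin.lt_def] at e1 e2
    have := y.1.isLt
    have := y'.1.isLt
    omega
  · intro j hj
    simp only [mem_filter, mem_range] at hj
    refine ⟨(3, ⟨j, by omega⟩), ?_, rfl⟩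
    simp only [mem_filter, mem_univ, true_and]
    refine ⟨hj.2, ?_, hj.1⟩
    rw [Fin.lt_def, hi]
    decide

/-- column of the `l`-th movable block of row 2 -/
def col (s : ℕ → Bool) (l : ℕ) : ℕ := if s l = true then 2 * l + 3 else 2 * l + 2

theorem col_lt {k l : ℕ} (s : ℕ → Bool) (hl : l < k) : col s l < 2 * k + 2 := by
  unfold col; split_ifs <;> omega

theorem cell_col (s : ℕ → Bool) (l : ℕ) : cell s 2 (col s l) = some true := by
  unfold col
  split_ifs with h
  · unfold cell
    rw [if_neg (by omega), typ_odd, h]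
    rfl
  · unfold cell
    rw [if_neg (by omega), typ_even]
    simp only [Bool.not_eq_true] at h
    rw [h]
    rfl

theorem cnt_col_two (s : ℕ → Bool) (l : ℕ) : cnt s 2 (col s l) = 1 + l := by
  have h0 : cnt s 2 2 = 1 := by
    rw [cnt_two s (fun _ => false)]
    decide
  unfold col
  split_ifs with h
  · rw [show 2 * l + 3 = 2 * l + 2 + 1 by ring, cnt_succ, cnt_base, h0]
    have : cell s 2 (2 * l + 2) = some false := by
      unfold cell
      rw [if_neg (by omega), typ_even, h]
      rfl
    rw [this]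
    simp
  · rw [cnt_base, h0]

theorem cnt_col_three (s : ℕ → Bool) (l : ℕ) :
    cnt s 3 (col s l) = 1 + l + if s l = true then 1 else 0 := by
  have h0 : cnt s 3 2 = 1 := by
    rw [cnt_two s (fun _ => false)]
    decide
  unfold col
  split_ifs with h
  · rw [show 2 * l + 3 = 2 * l + 2 + 1 by ring, cnt_succ, cnt_base, h0]
    have : cell s 3 (2 * l + 2) = some true := by
      unfold cell
      rw [if_neg (by omega), typ_even, h]
      rfl
    rw [this]
    simp
  · rw [cnt_base, h0, add_zero]

/-- the marked cell: the `l`-th movable block of row 2 -/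
def pos (k : ℕ) (s : Fin k → Bool) (l : Fin k) : Fin 4 × Fin (2 * k + 2) :=
  (2, ⟨col (ext k s) l, col_lt _ l.isLt⟩)

theorem fam_pos {k : ℕ} (s : Fin k → Bool) (l : Fin k) : fam k s (pos k s l) = some true := by
  unfold fam pos
  exact cell_col _ _

theorem rank_pos {k : ℕ} (s : Fin k → Bool) (l : Fin k) : rank (fam k s) (pos k s l) = 1 + l := by
  have h := cnt_row s 2 (col (ext k s) l) (col_lt _ l.isLt).le
  rw [show ((2 : Fin 4) : ℕ) = 2 from rfl, cnt_col_two] at h
  rw [← h]
  rfl

theorem charge_pos {k : ℕ} (s : Fin k → Bool) (l : Fin k) :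
    charge (fam k s) (1, 0) (pos k s l) = 1 + l + if s l = true then 1 else 0 := by
  have h := cnt_below s (col (ext k s) l) (col_lt _ l.isLt).le 2 rfl
  rw [cnt_col_three] at h
  have h0 : ¬ (pos k s l).2 ≤ (((1, 0) : Fin 4 × Fin (2 * k + 2))).2 := by
    rw [Fin.le_def]
    unfold pos col
    simp only [Fin.val_zero]
    split_ifs <;> omega
  have e : ext k s l = s l := by
    unfold ext
    rw [dif_pos l.isLt]
  rw [e] at h
  unfold charge
  rw [if_neg h0, add_zero, ← h]
  rfl

/-- the number of cells of a column without a vertical block is 2 -/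
theorem col_two (s : ℕ → Bool) (j : ℕ) : #{i : Fin 4 | cell s i j ≠ some false} = 2 := by
  unfold cell
  by_cases h : j = 0
  · simp only [h, if_true]
    decide
  · simp only [if_neg h]
    cases typ s j <;> decide

/-- every cell of a configuration of the family can be emptied -/
theorem live {k : ℕ} (s : Fin k → Bool) (y : Fin 4 × Fin (2 * k + 2)) : InK (fam k s) y := by
  have hval : ∀ (i : Fin 4) (j : ℕ) (hj : j < 2 * k + 2),
      fam k s (i, ⟨j, hj⟩) = cell (ext k s) i j := fun _ _ _ => rfl
  have h0 : 0 < 2 * k + 2 := by omega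
  have h1 : 1 < 2 * k + 2 := by omega
  have hs0 : ∀ (i i' : Fin 4) (j : ℕ) (hj : j < 2 * k + 2), (i : ℕ) + 1 = i' ∨ (i' : ℕ) + 1 = i →
      Slide false (i, (⟨j, hj⟩ : Fin (2 * k + 2))) (i', (⟨j, hj⟩ : Fin (2 * k + 2))) := by
    intro i i' j hj h
    unfold Slide
    simpa using h
  have hs1 : ∀ (i : Fin 4) (j j' : ℕ) (hj : j < 2 * k + 2) (hj' : j' < 2 * k + 2),
      j + 1 = j' ∨ j' + 1 = j →
      Slide true (i, (⟨j, hj⟩ : Fin (2 * k + 2))) (i, (⟨j', hj'⟩ : Fin (2 * k + 2))) := by
    intro i j j' hj hj' h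
    unfold Slide
    simpa using h
  have k10 : InK (fam k s) (1, ⟨0, h0⟩) := InK.hole (by rw [hval]; rfl)
  have k00 : InK (fam k s) (0, ⟨0, h0⟩) :=
    InK.step (b := false) k10 (by rw [hval]; rfl) (hs0 0 1 0 h0 (by decide))
  have k20 : InK (fam k s) (2, ⟨0, h0⟩) :=
    InK.step (b := false) k10 (by rw [hval]; rfl) (hs0 2 1 0 h0 (by decide))
  have k01 : InK (fam k s) (0, ⟨1, h1⟩) :=
    InK.step (b := true) k00 (by rw [hval]; rfl) (hs1 0 1 0 h1 h0 (by decide))
  have k21 : InK (fam k s) (2, ⟨1, h1⟩) :=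
    InK.step (b := true) k20 (by rw [hval]; rfl) (hs1 2 1 0 h1 h0 (by decide))
  have k11 : InK (fam k s) (1, ⟨1, h1⟩) :=
    InK.step (b := false) k01 (by rw [hval]; rfl) (hs0 1 0 1 h1 (by decide))
  have k31 : InK (fam k s) (3, ⟨1, h1⟩) :=
    InK.step (b := false) k21 (by rw [hval]; rfl) (hs0 3 2 1 h1 (by decide))
  have k30 : InK (fam k s) (3, ⟨0, h0⟩) :=
    InK.step (b := true) k31 (by rw [hval]; rfl) (hs1 3 0 1 h0 h1 (by decide))
  have main : ∀ (j : ℕ) (hj : j + 1 < 2 * k + 2) (i : Fin 4), InK (fam k s) (i, ⟨j + 1, hj⟩) := by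
    intro j
    induction j with
    | zero =>
      intro hj i
      fin_cases i
      exacts [k01, k11, k21, k31]
    | succ j ih =>
      intro hj i
      have ih' := ih (by omega)
      have hv : ∀ i : Fin 4, fam k s (i, ⟨j + 1 + 1, hj⟩)
          = some (xor (decide ((i : ℕ) % 2 = 0)) (typ (ext k s) (j + 1 + 1))) := by
        intro i
        rw [hval]
        unfold cell
        rw [if_neg (by omega)]
      have hH : ∀ i : Fin 4, fam k s (i, ⟨j + 1 + 1, hj⟩) = some true →
          InK (fam k s) (i, ⟨j + 1 + 1, hj⟩) := fun i h =>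
        InK.step (b := true) (ih' i) h (hs1 i (j + 1 + 1) (j + 1) hj (by omega) (by omega))
      have hV : ∀ i i' : Fin 4, InK (fam k s) (i', ⟨j + 1 + 1, hj⟩) →
          (i : ℕ) + 1 = i' ∨ (i' : ℕ) + 1 = i → fam k s (i, ⟨j + 1 + 1, hj⟩) = some false →
          InK (fam k s) (i, ⟨j + 1 + 1, hj⟩) := fun i i' h h' h'' =>
        InK.step (b := false) h h'' (hs0 i i' (j + 1 + 1) hj h')
      cases ht : typ (ext k s) (j + 1 + 1) with
      | false =>
        have a0 := hH 0 (by rw [hv, ht]; rfl)
        have a2 := hH 2 (by rw [hv, ht]; rfl)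
        have a1 := hV 1 0 a0 (by decide) (by rw [hv, ht]; rfl)
        have a3 := hV 3 2 a2 (by decide) (by rw [hv, ht]; rfl)
        fin_cases i
        exacts [a0, a1, a2, a3]
      | true =>
        have a1 := hH 1 (by rw [hv, ht]; rfl)
        have a3 := hH 3 (by rw [hv, ht]; rfl)
        have a0 := hV 0 1 a1 (by decide) (by rw [hv, ht]; rfl)
        have a2 := hV 2 1 a1 (by decide) (by rw [hv, ht]; rfl)
        fin_cases i
        exacts [a0, a1, a2, a3]
  obtain ⟨i, ⟨j, hj⟩⟩ := y
  rcases j with _ | j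
  · fin_cases i
    exacts [k00, k10, k20, k30]
  · exact main j hj i

theorem fam_none {k : ℕ} (s : Fin k → Bool) (y : Fin 4 × Fin (2 * k + 2)) :
    fam k s y = none ↔ y = (1, 0) := by
  unfold fam cell
  constructor
  · intro h
    split_ifs at h with h1 h2
    exact Prod.ext (Fin.ext h2) (Fin.ext (by simpa using h1))
  · rintro rfl
    simp

theorem fam_row {k : ℕ} (s : Fin k → Bool) (i : Fin 4) :
    #{j : Fin (2 * k + 2) | fam k s (i, j) = some true} = cnt (fun _ => false) i 2 + k := by
  have h := cnt_row s i (2 * k + 2) le_rfl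
  rw [cnt_base, cnt_two _ (fun _ => false)] at h
  rw [← h]
  congr 1
  apply Finset.filter_congr
  intro j _
  simp [j.isLt]

theorem fam_col {k : ℕ} (s : Fin k → Bool) (j : Fin (2 * k + 2)) :
    #{i : Fin 4 | fam k s (i, j) ≠ some false} = 2 := col_two (ext k s) j

/-- The configurations of the family are pairwise unreachable. -/
theorem fam_inj {k : ℕ} {s s' : Fin k → Bool} (h : Reach (fam k s) (fam k s')) : s = s' := by
  funext l
  obtain ⟨p', hp'⟩ := carries_of_reach h (pos k s l)
  have hK : ∀ (d : Config 4 (2 * k + 2)) (r : Fin 4 × Fin (2 * k + 2)),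
      Carries (fam k s) (pos k s l) d r → #{i : Fin 4 | d (i, r.2) ≠ some false} = 2 := by
    intro d r hd
    rw [nv_carries hd r.2, fam_col]
  obtain ⟨q', e1, e2, e3, e4, e5⟩ := carried (fam_none s) (fam_pos s l) hK hp'
  simp only at e1 e2 e3 e4 e5
  have hq : q' = (1, 0) := (fam_none s' q').1 ((e1 q').2 rfl)
  have hpp : p' = pos k s' l := by
    apply eq_of_rank e2 (fam_pos s' l) e3
    rw [← e5, rank_pos, rank_pos]
  rw [hq, hpp, charge_pos, charge_pos] at e4
  cases h1 : s l <;> cases h2 : s' l <;> simp only [h1, h2] at e4 ⊢ <;>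
    simp only [if_true, Bool.false_eq_true, if_false] at e4 <;> omega

end Pool.Agent.H18.RH
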